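import Pool.Agent.H23.CMC.Targets

set_option autoImplicit false

namespace Pool.Agent.H41.CMC

open NumberField MeasureTheory Set Filter Complex
open scoped nonZeroDivisors Real
open Pool.Agent.H23.CMC
open Pool.Agent.H65.CM4 (Sq nm dg Pl rv)
open Pool.Agent.H65.CMC (Emb ty PrTo IsHk ms IsLk gg GM cG Km Idx cdc Fmc lc)
open Pool.Agent.H23.CM4 (nJ Jd Nr wB)
open Pool.Agent.H23.LC (HG ag)

theorem pf_DVB (hLCN : T_LCN) (oDVB : Pool.Agent.H23.CM4.T_DVB)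
    (oJDM : Pool.Agent.H23.CM4.T_JDM) : T_DVBc := by
  intro k _ _ ε hε
  obtain ⟨C, hC, h⟩ := oDVB k ε hε
  refine ⟨C, hC, ?_⟩
  intro K _ _ _ hrk hcpx ψ hψ I hI
  have h1 := h K ⟨hrk, hcpx⟩ 1 I hI
  have h2 : Pool.Agent.H23.CM4.lr k (1 : Pool.Agent.H61.FM.CC K) I = ((Nr k K I).card : ℂ) := by
    unfold Pool.Agent.H23.CM4.lr
    rw [Finset.sum_congr rfl (fun J _ => show _ = (1 : ℂ) by
      simp [Pool.Agent.H61.FM.pv])]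
    simp
  rw [h2] at h1
  rw [hLCN k K ψ I]
  calc ‖∑ J ∈ Nr k K I, cf ψ J‖ ≤ ∑ J ∈ Nr k K I, ‖cf ψ J‖ := norm_sum_le _ _
    _ ≤ ∑ _J ∈ Nr k K I, (1 : ℝ) := Finset.sum_le_sum fun J _ => hψ _
    _ = ‖((Nr k K I).card : ℂ)‖ := by simp
    _ ≤ C * nm I ^ ε := h1

end Pool.Agent.H41.CMC
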